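import Pool.Agent.H699.MX.Defs

/-! The shift tends to zero, and the difference of the means. -/

set_option autoImplicit false

open MeasureTheory Set
open scoped Classical

namespace Pool.Agent.H383.MX.THA

open Pool.Agent.H699.MX

theorem dom_mono {νm νp : Measure ℝ} [IsProbabilityMeasure νp] {S S' : ℝ} (hS : S ≤ S')
    (h : Dom S νm νp) : Dom S' νm νp := by
  intro t ht
  refine le_trans ?_ (h t ht)
  refine measureReal_mono ?_ (measure_ne_top _ _)
  intro x hx
  have hx' : t + S' < x := hx
  show t + S < x
  linarith

theorem t_THA : S_CON → S_PRE → S_LPR → S_THA := by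
  intro hCON hPRE hLPR μ a b hG d S₀ hS₀
  obtain ⟨M, hM⟩ := hCON μ a b hG d
  obtain ⟨N, η, hη, hηS, hstep⟩ := hM S₀ hS₀
  have key : ∀ j : ℕ, ∀ T : RT, T.Wd d →
      Dom (max S₀ (b - j * η)) (law μ b (M + j * N) T false) (law μ b (M + j * N) T true) := by
    intro j
    induction j with
    | zero =>
      intro T _ t ht
      obtain ⟨_, _, _, h3, _, h5⟩ := hLPR μ a b hG (M + 0 * N) T
      have h0 : (law μ b (M + 0 * N) T true).real
          (Ioi (t + max S₀ (b - ((0 : ℕ) : ℝ) * η))) = 0 := by
        have hsub : Ioi (t + max S₀ (b - ((0 : ℕ) : ℝ) * η)) ⊆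
            Ioi (ext a b (M + 0 * N) T true) := by
          apply Ioi_subset_Ioi
          have h6 : b ≤ max S₀ (b - ((0 : ℕ) : ℝ) * η) := by
            rw [Nat.cast_zero, zero_mul, sub_zero]
            exact le_max_right _ _
          linarith
        have h7 := measure_mono_null hsub (h5 true)
        rw [Measure.real, h7]
        rfl
      rw [h0]
      exact measureReal_nonneg
    | succ j ih =>
      intro T hT
      have h1 := hstep (M + j * N) (Nat.le_add_right _ _) (max S₀ (b - j * η)) (le_max_left _ _)
        ih T hT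
      have e : M + (j + 1) * N = M + j * N + N := by ring
      rw [e]
      have hpr : IsProbabilityMeasure (law μ b (M + j * N + N) T true) :=
        (hLPR μ a b hG (M + j * N + N) T).1 true
      refine dom_mono ?_ h1
      rcases le_total S₀ (b - j * η) with hc | hc
      · rw [max_eq_right hc]
        refine le_trans (le_of_eq ?_) (le_max_right _ _)
        push_cast
        ring
      · rw [max_eq_left hc]
        exact le_trans (by linarith) (le_max_left _ _)
  obtain ⟨j, hj⟩ := exists_nat_ge (b / η)
  have hj' : b ≤ j * η := by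
    rwa [div_le_iff₀ hη] at hj
  refine ⟨M + j * N, fun n hn T hT => ?_⟩
  refine hPRE μ a b hG d (M + j * N) S₀ hS₀.le ?_ n hn T hT
  intro T' hT'
  have h := key j T' hT'
  rwa [max_eq_left (by linarith)] at h

theorem t_MEA : S_LPR → S_MEA := by
  intro hLPR μ a b hG n T S hS hdom
  obtain ⟨hprob, h1, h2, h3, h4, h5⟩ := hLPR μ a b hG n T
  have hp : IsProbabilityMeasure (law μ b n T true) := hprob true
  have hm : IsProbabilityMeasure (law μ b n T false) := hprob false
  have hae : ∀ s, ∀ᵐ x ∂(law μ b n T s), x ∈ Icc (0 : ℝ) b := by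
    intro s
    have h6 : ∀ᵐ x ∂(law μ b n T s), x ∉ Iio (ext a b n T false) :=
      measure_eq_zero_iff_ae_notMem.mp (h4 s)
    have h7 : ∀ᵐ x ∂(law μ b n T s), x ∉ Ioi (ext a b n T true) :=
      measure_eq_zero_iff_ae_notMem.mp (h5 s)
    filter_upwards [h6, h7] with x hx hx'
    rw [mem_Iio, not_lt] at hx
    rw [mem_Ioi, not_lt] at hx'
    exact ⟨h1.trans hx, hx'.trans h3⟩
  generalize hνp : law μ b n T true = νp at *
  generalize hνm : law μ b n T false = νm at *
  have haep : ∀ᵐ x ∂νp, x ∈ Icc (0 : ℝ) b := by
    have := hae true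
    rwa [hνp] at this
  have haem : ∀ᵐ x ∂νm, x ∈ Icc (0 : ℝ) b := by
    have := hae false
    rwa [hνm] at this
  have ip : Integrable (fun x : ℝ => x) νp :=
    Integrable.of_mem_Icc 0 b measurable_id.aemeasurable haep
  have im : Integrable (fun x : ℝ => x) νm :=
    Integrable.of_mem_Icc 0 b measurable_id.aemeasurable haem
  have imax : Integrable (fun x : ℝ => max (x - S) 0) νp := by
    apply Integrable.of_mem_Icc 0 (max b 0)
    · exact ((measurable_id.sub_const S).max measurable_const).aemeasurable
    · filter_upwards [haep] with x hx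
      refine ⟨le_max_right _ _, max_le_max ?_ le_rfl⟩
      linarith [hx.2]
  have key : ∫⁻ x, ENNReal.ofReal (max (x - S) 0) ∂νp ≤ ∫⁻ x, ENNReal.ofReal x ∂νm := by
    have l1 := lintegral_eq_lintegral_meas_lt νp (f := fun x : ℝ => max (x - S) 0)
      (Filter.Eventually.of_forall fun x => le_max_right _ _)
      ((measurable_id.sub_const S).max measurable_const).aemeasurable
    have l2 := lintegral_eq_lintegral_meas_lt νm (f := fun x : ℝ => x)
      (haem.mono fun x hx => hx.1) measurable_id.aemeasurable
    rw [l1, l2]
    apply setLIntegral_mono' measurableSet_Ioi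
    intro t ht
    have ht0 : (0 : ℝ) < t := ht
    have e1 : {x : ℝ | t < max (x - S) 0} = Ioi (t + S) := by
      ext x
      rw [mem_ofPred_eq, mem_Ioi, lt_max_iff]
      constructor
      · rintro (h | h)
        · linarith
        · exact absurd h (not_lt.mpr ht0.le)
      · intro h
        left
        linarith
    have e2 : {x : ℝ | t < x} = Ioi t := rfl
    rw [e1, e2]
    have h6 := hdom t ht0.le
    exact (ENNReal.toReal_le_toReal (measure_ne_top _ _) (measure_ne_top _ _)).mp h6
  rw [← ofReal_integral_eq_lintegral_ofReal imax (Filter.Eventually.of_forall fun x =>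
      le_max_right _ _), ← ofReal_integral_eq_lintegral_ofReal im (haem.mono fun x hx => hx.1),
    ENNReal.ofReal_le_ofReal_iff (integral_nonneg_of_ae (haem.mono fun x hx => hx.1))] at key
  have h8 : ∫ x, x ∂νp ≤ ∫ x, (S + max (x - S) 0) ∂νp := by
    apply integral_mono ip ((integrable_const S).add imax)
    intro x
    show x ≤ S + max (x - S) 0
    have := le_max_left (x - S) 0
    linarith
  rw [integral_add (integrable_const S) imax, integral_const, probReal_univ, one_smul] at h8
  linarith

end Pool.Agent.H383.MX.THA
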